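import Mathlib

set_option autoImplicit false

open SimpleGraph

namespace Pool.Agent.Results.MP_f0827e_co.UniversalThetaGraph

/-- The points, in order, of the path which replaces the edge `e` of `Y` when `e` gets `ℓ e`
internal vertices: point `0` is the smaller end of `e`, the points `1, ..., ℓ e` are the new
internal vertices `(e, 0), ..., (e, ℓ e - 1)`, and point `ℓ e + 1` is the larger end of `e`. -/
def pt {k : ℕ} (Y : SimpleGraph (Fin k)) (ℓ : Y.edgeSet → ℕ) (e : Y.edgeSet) :
    ℕ → Fin k ⊕ (Σ e : Y.edgeSet, Fin (ℓ e))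
  | 0 => Sum.inl e.1.inf
  | i + 1 => if h : i < ℓ e then Sum.inr ⟨e, ⟨i, h⟩⟩ else Sum.inl e.1.sup

/-- The subdivision of `Y` in which every edge `e` is replaced by a path with `ℓ e` new internal
vertices: consecutive points of these paths are adjacent. -/
def subdivision {k : ℕ} (Y : SimpleGraph (Fin k)) (ℓ : Y.edgeSet → ℕ) :
    SimpleGraph (Fin k ⊕ (Σ e : Y.edgeSet, Fin (ℓ e))) :=
  SimpleGraph.fromRel (fun a b => ∃ (e : Y.edgeSet) (i : ℕ), i ≤ ℓ e ∧
    a = pt Y ℓ e i ∧ b = pt Y ℓ e (i + 1))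

/-- `X` belongs to the class `𝒢(Y)`: it is the intersection graph of a family, indexed by the
vertices of `X`, of connected subgraphs of some subdivision of `Y`. -/
def InClass {k : ℕ} (Y : SimpleGraph (Fin k)) {V : Type} (X : SimpleGraph V) : Prop :=
  ∃ (ℓ : Y.edgeSet → ℕ) (S : V → (subdivision Y ℓ).Subgraph),
    (∀ v, (S v).Connected) ∧
    ∀ u v, u ≠ v → (X.Adj u v ↔ ((S u).verts ∩ (S v).verts).Nonempty)

/-- The class `𝒢(Y)` is universal: every finite group is isomorphic to the automorphism group of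
some finite graph in the class. -/
def Universal {k : ℕ} (Y : SimpleGraph (Fin k)) : Prop :=
  ∀ (Γ : Type) [Group Γ] [Finite Γ], ∃ (V : Type) (_ : Finite V) (X : SimpleGraph V),
    InClass Y X ∧ Nonempty ((X ≃g X) ≃* Γ)

section geometry

lemma conn_of_rank {W : Type*} (H : SimpleGraph W) (s : Set W) (x : W) (hx : x ∈ s)
    (rank : W → ℕ) (hpar : ∀ v ∈ s, v = x ∨ ∃ u ∈ s, H.Adj u v ∧ rank u < rank v) :
    ((⊤ : H.Subgraph).induce s).Connected := by
  rw [← connected_induce_iff, connected_iff_exists_forall_reachable]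
  refine ⟨⟨x, hx⟩, ?_⟩
  have key : ∀ n, ∀ v, (hv : v ∈ s) → rank v ≤ n → (H.induce s).Reachable ⟨x, hx⟩ ⟨v, hv⟩ := by
    intro n
    induction n with
    | zero =>
      intro v hv hr
      rcases hpar v hv with h | ⟨u, hu, ha, hlt⟩
      · subst h; exact Reachable.refl _
      · omega
    | succ n ih =>
      intro v hv hr
      rcases hpar v hv with h | ⟨u, hu, ha, hlt⟩
      · subst h; exact Reachable.refl _
      · have h1 := ih u hu (by omega)
        have h2 : (H.induce s).Adj ⟨u, hu⟩ ⟨v, hv⟩ := by simpa using ha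
        exact h1.trans h2.reachable
  rintro ⟨v, hv⟩
  exact key _ v hv le_rfl

/-- The graph `K_{2,5}`: `0` and `1` are joined to each of `2, ..., 6`. -/
def theta : SimpleGraph (Fin 7) :=
  SimpleGraph.fromRel (fun a b => (a : ℕ) < 2 ∧ 2 ≤ (b : ℕ))

def z (t : Fin 5) : Fin 7 := ⟨t + 2, by omega⟩

lemma theta_adj0 (t : Fin 5) : theta.Adj 0 (z t) := by
  rw [theta, fromRel_adj]
  refine ⟨?_, Or.inl ⟨by simp, by simp [z]⟩⟩
  intro h
  have := congrArg Fin.val h
  simp [z] at this

lemma theta_adj1 (t : Fin 5) : theta.Adj 1 (z t) := by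
  rw [theta, fromRel_adj]
  refine ⟨?_, Or.inl ⟨by simp, by simp [z]⟩⟩
  intro h
  have := congrArg Fin.val h
  simp [z] at this

/-- the edge from `0` to `z t`. -/
def e0 (t : Fin 5) : theta.edgeSet := ⟨s(0, z t), theta_adj0 t⟩

def e1 (t : Fin 5) : theta.edgeSet := ⟨s(1, z t), theta_adj1 t⟩

lemma e0_inj {t u : Fin 5} (h : e0 t = e0 u) : t = u := by
  have h1 := congrArg Subtype.val h
  simp only [e0, Sym2.eq_iff] at h1
  rcases h1 with ⟨_, h1⟩ | ⟨h1, _⟩
  · have := congrArg Fin.val h1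
    simp only [z] at this
    exact Fin.ext (by omega)
  · have := congrArg Fin.val h1
    simp [z] at this

lemma e1_ne_e0 (t u : Fin 5) : e1 t ≠ e0 u := by
  intro h
  have h1 := congrArg Subtype.val h
  simp only [e0, e1, Sym2.eq_iff] at h1
  rcases h1 with ⟨h1, _⟩ | ⟨h1, _⟩
  · have := congrArg Fin.val h1
    simp at this
  · have := congrArg Fin.val h1
    simp [z] at this

open Classical in
noncomputable def len (N : ℕ) : theta.edgeSet → ℕ := fun e => if ∃ t, e = e0 t then N else 0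

lemma len_e0 (N : ℕ) (t : Fin 5) : len N (e0 t) = N := by
  unfold len; rw [if_pos ⟨t, rfl⟩]

lemma len_e1 (N : ℕ) (t : Fin 5) : len N (e1 t) = 0 := by
  unfold len; rw [if_neg]; rintro ⟨u, hu⟩; exact e1_ne_e0 t u hu

lemma inf_e0 (t : Fin 5) : (e0 t).1.inf = 0 := by
  have : (e0 t).1 = s(0, z t) := rfl
  rw [this, Sym2.inf_mk, inf_eq_left]
  exact Fin.zero_le _

lemma sup_e0 (t : Fin 5) : (e0 t).1.sup = z t := by
  have : (e0 t).1 = s(0, z t) := rfl
  rw [this, Sym2.sup_mk, sup_eq_right]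
  exact Fin.zero_le _

lemma inf_e1 (t : Fin 5) : (e1 t).1.inf = 1 := by
  have : (e1 t).1 = s(1, z t) := rfl
  rw [this, Sym2.inf_mk, inf_eq_left, Fin.le_def]
  simp [z]

lemma sup_e1 (t : Fin 5) : (e1 t).1.sup = z t := by
  have : (e1 t).1 = s(1, z t) := rfl
  rw [this, Sym2.sup_mk, sup_eq_right, Fin.le_def]
  simp [z]

/-- points of the long paths -/
noncomputable def q (N : ℕ) (t : Fin 5) (i : ℕ) :
    Fin 7 ⊕ (Σ e : theta.edgeSet, Fin (len N e)) := pt theta (len N) (e0 t) i

lemma q_zero (N : ℕ) (t : Fin 5) : q N t 0 = Sum.inl 0 := by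
  unfold q pt; rw [inf_e0]

lemma q_succ (N : ℕ) (t : Fin 5) (i : ℕ) (hi : i < N) :
    q N t (i + 1) = Sum.inr ⟨e0 t, ⟨i, by rw [len_e0]; exact hi⟩⟩ := by
  unfold q pt
  simp only
  rw [dif_pos]

lemma q_last (N : ℕ) (t : Fin 5) : q N t (N + 1) = Sum.inl (z t) := by
  unfold q pt
  simp only
  rw [dif_neg, sup_e0]
  rw [len_e0]; exact lt_irrefl _

lemma q_inj (N : ℕ) (t u : Fin 5) (i j : ℕ) (hi : i < N) (hj : j ≤ N)
    (h : q N t (i + 1) = q N u (j + 1)) : t = u ∧ i = j := by
  rw [q_succ N t i hi] at h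
  rcases Nat.lt_or_ge j N with hj' | hj'
  · rw [q_succ N u j hj'] at h
    have h1 := Sum.inr.inj h
    have h2 : e0 t = e0 u := (Sigma.mk.inj_iff.1 h1).1
    have h3 := e0_inj h2
    subst h3
    have h4 := eq_of_heq (Sigma.mk.inj_iff.1 h1).2
    exact ⟨rfl, congrArg Fin.val h4⟩
  · have : j = N := by omega
    subst this
    rw [q_last] at h
    exact absurd h (by simp)

lemma q_adj (N : ℕ) (t : Fin 5) (i : ℕ) (hi : i ≤ N) (hne : q N t i ≠ q N t (i + 1)) :
    (subdivision theta (len N)).Adj (q N t i) (q N t (i + 1)) := by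
  rw [subdivision, fromRel_adj]
  exact ⟨hne, Or.inl ⟨e0 t, i, by rw [len_e0]; exact hi, rfl, rfl⟩⟩

def SL (N : ℕ) (α : Fin 5 → ℕ) : Set (Fin 7 ⊕ (Σ e : theta.edgeSet, Fin (len N e))) :=
  {w | w = Sum.inl 0 ∨ ∃ t i, i < α t ∧ w = q N t (i + 1)}

def SR (N : ℕ) (β : Fin 5 → ℕ) : Set (Fin 7 ⊕ (Σ e : theta.edgeSet, Fin (len N e))) :=
  {w | w = Sum.inl 1 ∨ ∃ t i, β t ≤ i ∧ i ≤ N ∧ w = q N t (i + 1)}

lemma SL_conn (N : ℕ) (α : Fin 5 → ℕ) (hα : ∀ t, α t ≤ N) :
    ((⊤ : (subdivision theta (len N)).Subgraph).induce (SL N α)).Connected := by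
  apply conn_of_rank _ _ (Sum.inl 0) (Or.inl rfl)
    (fun w => match w with
      | Sum.inl _ => 0
      | Sum.inr p => (p.2 : ℕ) + 1)
  rintro v (hv | ⟨t, i, hi, hv⟩)
  · left; exact hv
  · right
    have hiN : i < N := lt_of_lt_of_le hi (hα t)
    refine ⟨q N t i, ?_, ?_, ?_⟩
    · cases i with
      | zero => left; exact q_zero N t
      | succ i => right; exact ⟨t, i, by omega, rfl⟩
    · rw [hv]
      apply q_adj N t i hiN.le
      cases i with
      | zero => rw [q_zero, q_succ N t 0 hiN]; simp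
      | succ i =>
        intro h
        have := (q_inj N t t i (i + 1) (by omega) (by omega) h).2
        omega
    · rw [hv, q_succ N t i hiN]
      cases i with
      | zero => rw [q_zero]; simp
      | succ i => rw [q_succ N t i (by omega)]; simp

lemma SR_conn (N : ℕ) (β : Fin 5 → ℕ) :
    ((⊤ : (subdivision theta (len N)).Subgraph).induce (SR N β)).Connected := by
  apply conn_of_rank _ _ (Sum.inl 1) (Or.inl rfl)
    (fun w => match w with
      | Sum.inl v => if v = 1 then 0 else 1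
      | Sum.inr p => N + 1 - (p.2 : ℕ))
  rintro v (hv | ⟨t, i, hi, hiN, hv⟩)
  · left; exact hv
  · right
    rcases Nat.lt_or_ge i N with h | h
    · refine ⟨q N t (i + 2), ?_, ?_, ?_⟩
      · right; exact ⟨t, i + 1, by omega, by omega, rfl⟩
      · rw [hv]
        apply SimpleGraph.Adj.symm
        apply q_adj N t (i + 1) (by omega)
        intro h'
        have := (q_inj N t t i (i + 1) h (by omega) h').2
        omega
      · rw [hv, q_succ N t i h]
        rcases Nat.lt_or_ge (i + 1) N with h2 | h2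
        · rw [q_succ N t (i + 1) h2]
          simp only
          omega
        · have e : i + 2 = N + 1 := by omega
          rw [e, q_last]
          simp only
          have : z t ≠ 1 := by
            intro h'
            have := congrArg Fin.val h'
            simp [z] at this
          rw [if_neg this]
          omega
    · have hiN' : i = N := by omega
      subst hiN'
      rw [q_last] at hv
      have hz : z t ≠ 1 := by
        intro h'
        have := congrArg Fin.val h'
        simp [z] at this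
      refine ⟨Sum.inl 1, Or.inl rfl, ?_, ?_⟩
      · rw [hv, subdivision, fromRel_adj]
        refine ⟨fun h' => hz (Sum.inl.inj h').symm, Or.inl ⟨e1 t, 0, by omega, ?_, ?_⟩⟩
        · unfold pt; rw [inf_e1]
        · unfold pt
          simp only
          rw [dif_neg, sup_e1]
          rw [len_e1]; exact lt_irrefl _
      · rw [hv]
        simp [hz]

lemma SL_inter (N : ℕ) (α α' : Fin 5 → ℕ) : (SL N α ∩ SL N α').Nonempty :=
  ⟨Sum.inl 0, Or.inl rfl, Or.inl rfl⟩

lemma SR_inter (N : ℕ) (α α' : Fin 5 → ℕ) : (SR N α ∩ SR N α').Nonempty :=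
  ⟨Sum.inl 1, Or.inl rfl, Or.inl rfl⟩

lemma SLR_inter (N : ℕ) (α β : Fin 5 → ℕ) (hα : ∀ t, α t ≤ N) :
    (SL N α ∩ SR N β).Nonempty ↔ ∃ t, β t < α t := by
  constructor
  · rintro ⟨w, h1 | ⟨t, i, hi, h1⟩, h2 | ⟨u, j, hj, hjN, h2⟩⟩
    · rw [h1] at h2
      have := congrArg Fin.val (Sum.inl.inj h2)
      simp at this
    · exfalso
      rw [h1] at h2
      rcases Nat.lt_or_ge j N with h | h
      · rw [q_succ N u j h] at h2; simp at h2
      · have : j = N := by omega
        subst this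
        rw [q_last] at h2
        have := congrArg Fin.val (Sum.inl.inj h2)
        simp [z] at this
    · exfalso
      rw [h1, q_succ N t i (lt_of_lt_of_le hi (hα t))] at h2
      simp at h2
    · rw [h1] at h2
      obtain ⟨h3, h4⟩ := q_inj N t u i j (lt_of_lt_of_le hi (hα t)) hjN h2
      subst h3; subst h4
      exact ⟨t, by omega⟩
  · rintro ⟨t, ht⟩
    exact ⟨q N t (β t + 1), Or.inr ⟨t, β t, ht, rfl⟩,
      Or.inr ⟨t, β t, le_rfl, ht.le.trans (hα t), rfl⟩⟩

/-- the graph on `L ⊕ R` in which `L` and `R` are cliques and `l`, `r` are adjacent iff not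
`B l r`. -/
def coB {L R : Type} (B : L → R → Prop) : SimpleGraph (L ⊕ R) :=
  SimpleGraph.fromRel (fun u v => match u, v with
    | Sum.inl _, Sum.inl _ => True
    | Sum.inr _, Sum.inr _ => True
    | Sum.inl l, Sum.inr r => ¬ B l r
    | Sum.inr _, Sum.inl _ => False)

theorem inClass_coB {L R : Type} (B : L → R → Prop) (N : ℕ) (α : L → Fin 5 → ℕ)
    (β : R → Fin 5 → ℕ) (hα : ∀ l t, α l t ≤ N)
    (hB : ∀ l r, B l r ↔ ∀ t, α l t ≤ β r t) : InClass theta (coB B) := by
  refine ⟨len N, fun v => match v with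
    | Sum.inl l => (⊤ : (subdivision theta (len N)).Subgraph).induce (SL N (α l))
    | Sum.inr r => (⊤ : (subdivision theta (len N)).Subgraph).induce (SR N (β r)), ?_, ?_⟩
  · rintro (l | r)
    · exact SL_conn N _ (hα l)
    · exact SR_conn N _
  · have hLR : ∀ l r, ¬ B l r ↔ (SL N (α l) ∩ SR N (β r)).Nonempty := by
      intro l r
      rw [SLR_inter N _ _ (hα l), hB]
      push Not
      rfl
    rintro (l | r) (l' | r') hne
    · simp only [coB, fromRel_adj, Subgraph.induce_verts]
      exact iff_of_true ⟨hne, by simp⟩ (SL_inter N _ _)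
    · simp only [coB, fromRel_adj, Subgraph.induce_verts]
      rw [← hLR l r']
      simp
    · simp only [coB, fromRel_adj, Subgraph.induce_verts]
      rw [Set.inter_comm, ← hLR l' r]
      simp
    · simp only [coB, fromRel_adj, Subgraph.induce_verts]
      exact iff_of_true ⟨hne, by simp⟩ (SR_inter N _ _)

end geometry

section sides

variable {L R : Type} {B : L → R → Prop}

/-- the non-adjacency relation between the two sides -/
def Bc (B : L → R → Prop) : L ⊕ R → L ⊕ R → Prop
  | Sum.inl l, Sum.inr r => B l r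
  | Sum.inr r, Sum.inl l => B l r
  | Sum.inl _, Sum.inl _ => False
  | Sum.inr _, Sum.inr _ => False

lemma adj_iff (u v : L ⊕ R) : (coB B).Adj u v ↔ u ≠ v ∧ ¬ Bc B u v := by
  rcases u with l | r <;> rcases v with l' | r' <;> simp [coB, Bc, fromRel_adj]

lemma Bc_iff (f : coB B ≃g coB B) (u v : L ⊕ R) : Bc B (f u) (f v) ↔ Bc B u v := by
  by_cases huv : u = v
  · subst huv
    rcases h : f u with l | r <;> rcases u with l' | r' <;> simp [Bc]
  · have h1 : (coB B).Adj (f u) (f v) ↔ (coB B).Adj u v := f.map_rel_iff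
    rw [adj_iff, adj_iff] at h1
    have h2 : f u ≠ f v := fun h => huv (f.injective h)
    simp only [ne_eq, huv, not_false_eq_true, true_and, h2] at h1
    exact not_iff_not.1 h1

lemma sides (l0 : L) (h0 : ∀ r, B l0 r) (h1 : ∀ l, ∃ r, B l r) (h2 : ∀ r, ∃ l, ¬ B l r)
    (f : coB B ≃g coB B) :
    (∀ l, ∃ l', f (Sum.inl l) = Sum.inl l') ∧ (∀ r, ∃ r', f (Sum.inr r) = Sum.inr r') := by
  have hB := Bc_iff f
  rcases hf : f (Sum.inl l0) with l1 | r0
  · have hr : ∀ r, ∃ r', f (Sum.inr r) = Sum.inr r' := by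
      intro r
      have h3 := (hB (Sum.inl l0) (Sum.inr r)).2 (h0 r)
      rw [hf] at h3
      rcases h4 : f (Sum.inr r) with l' | r'
      · rw [h4] at h3; exact absurd h3 (by simp [Bc])
      · exact ⟨r', rfl⟩
    refine ⟨?_, hr⟩
    intro l
    obtain ⟨r, h3⟩ := h1 l
    obtain ⟨r', h4⟩ := hr r
    have h5 := (hB (Sum.inl l) (Sum.inr r)).2 h3
    rw [h4] at h5
    rcases h6 : f (Sum.inl l) with l' | r''
    · exact ⟨l', rfl⟩
    · rw [h6] at h5; exact absurd h5 (by simp [Bc])
  · exfalso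
    have hr : ∀ r, ∃ l', f (Sum.inr r) = Sum.inl l' ∧ B l' r0 := by
      intro r
      have h3 := (hB (Sum.inl l0) (Sum.inr r)).2 (h0 r)
      rw [hf] at h3
      rcases h4 : f (Sum.inr r) with l' | r'
      · rw [h4] at h3; exact ⟨l', rfl, h3⟩
      · rw [h4] at h3; exact absurd h3 (by simp [Bc])
    have hl : ∀ l, ∃ r', f (Sum.inl l) = Sum.inr r' := by
      intro l
      obtain ⟨r, h3⟩ := h1 l
      obtain ⟨l', h4, _⟩ := hr r
      have h5 := (hB (Sum.inl l) (Sum.inr r)).2 h3
      rw [h4] at h5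
      rcases h6 : f (Sum.inl l) with l'' | r''
      · rw [h6] at h5; exact absurd h5 (by simp [Bc])
      · exact ⟨r'', rfl⟩
    obtain ⟨l, h3⟩ := h2 r0
    obtain ⟨u, hu⟩ := f.surjective (Sum.inl l)
    rcases u with l' | r
    · obtain ⟨r', h4⟩ := hl l'
      rw [h4] at hu; exact absurd hu (by simp)
    · obtain ⟨l', h4, h5⟩ := hr r
      rw [h4] at hu
      have : l' = l := Sum.inl.inj hu
      subst this
      exact h3 h5

end sides

section group

variable {Γ : Type} [Group Γ] {m : ℕ} (e : Γ ≃ Fin m)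

abbrev Lt (Γ : Type) (m : ℕ) : Type := Fin m ⊕ (Γ ⊕ Γ)
abbrev Rt (Γ : Type) : Type := (Γ × Γ) ⊕ Bool

/-- the bipartite relation -/
def Bg : Lt Γ m → Rt Γ → Prop
  | Sum.inl i, Sum.inl p => i ≤ e p.2
  | Sum.inl _, Sum.inr _ => True
  | Sum.inr (Sum.inl g), Sum.inl p => g = p.1
  | Sum.inr (Sum.inl _), Sum.inr b => b = true
  | Sum.inr (Sum.inr h), Sum.inl p => h = p.1 * p.2
  | Sum.inr (Sum.inr _), Sum.inr _ => False

def al : Lt Γ m → Fin 5 → ℕ
  | Sum.inl i => ![0, 0, 0, 0, (i : ℕ) + 1]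
  | Sum.inr (Sum.inl g) => ![(e g : ℕ) + 1, m - (e g : ℕ), 0, 0, 0]
  | Sum.inr (Sum.inr h) => ![0, 0, (e h : ℕ) + 1, m - (e h : ℕ), 0]

def be : Rt Γ → Fin 5 → ℕ
  | Sum.inl p => ![(e p.1 : ℕ) + 1, m - (e p.1 : ℕ), (e (p.1 * p.2) : ℕ) + 1,
      m - (e (p.1 * p.2) : ℕ), (e p.2 : ℕ) + 1]
  | Sum.inr true => ![m + 1, m + 1, 0, 0, m]
  | Sum.inr false => ![0, 0, 0, 0, m]

lemma al_le (l : Lt Γ m) (t : Fin 5) : al e l t ≤ m + 1 := by
  rcases l with i | g | h
  · have := i.2
    fin_cases t <;> simp [al]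
  · have := (e g).2
    fin_cases t <;> simp [al] <;> omega
  · have := (e h).2
    fin_cases t <;> simp [al] <;> omega

lemma e_eq_iff (g h : Γ) : g = h ↔ (e g : ℕ) = (e h : ℕ) := by
  constructor
  · rintro rfl; rfl
  · intro h'; exact e.injective (Fin.ext h')

lemma Bg_iff (l : Lt Γ m) (r : Rt Γ) : Bg e l r ↔ ∀ t, al e l t ≤ be e r t := by
  rcases l with i | g | h <;> rcases r with ⟨g', s⟩ | b
  · simp only [Bg, al, be, Fin.forall_fin_succ, Fin.le_def]
    simp
  · have := i.2
    cases b <;> simp [Bg, al, be, Fin.forall_fin_succ]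
  · have h1 := (e g).2
    have h2 := (e g').2
    simp only [Bg, al, be, Fin.forall_fin_succ]
    rw [e_eq_iff e]
    simp
    omega
  · have h1 := (e g).2
    cases b <;> simp [Bg, al, be, Fin.forall_fin_succ] <;> omega
  · have h1 := (e h).2
    have h2 := (e (g' * s)).2
    simp only [Bg, al, be, Fin.forall_fin_succ]
    rw [e_eq_iff e]
    simp
    omega
  · have h1 := (e h).2
    cases b <;> simp [Bg, al, be, Fin.forall_fin_succ]

theorem inClass_group : InClass theta (coB (Bg e)) :=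
  inClass_coB (Bg e) (m + 1) (al e) (be e) (al_le e) (Bg_iff e)

/-- the action on the left side -/
def Lmap (k : Γ) : Lt Γ m → Lt Γ m
  | Sum.inl i => Sum.inl i
  | Sum.inr (Sum.inl g) => Sum.inr (Sum.inl (k * g))
  | Sum.inr (Sum.inr h) => Sum.inr (Sum.inr (k * h))

def Rmap (k : Γ) : Rt Γ → Rt Γ
  | Sum.inl p => Sum.inl (k * p.1, p.2)
  | Sum.inr b => Sum.inr b

lemma Lmap_mul (k k' : Γ) (l : Lt Γ m) : Lmap (k * k') l = Lmap k (Lmap k' l) := by
  rcases l with i | g | h <;> simp [Lmap, mul_assoc]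

lemma Rmap_mul (k k' : Γ) (r : Rt Γ) : Rmap (k * k') r = Rmap k (Rmap k' r) := by
  rcases r with ⟨g, s⟩ | b <;> simp [Rmap, mul_assoc]

lemma Lmap_one (l : Lt Γ m) : Lmap 1 l = l := by
  rcases l with i | g | h <;> simp [Lmap]

lemma Rmap_one (r : Rt Γ) : Rmap 1 r = r := by
  rcases r with ⟨g, s⟩ | b <;> simp [Rmap]

lemma Bg_map (k : Γ) (l : Lt Γ m) (r : Rt Γ) : Bg e (Lmap k l) (Rmap k r) ↔ Bg e l r := by
  rcases l with i | g | h <;> rcases r with ⟨g', s⟩ | b <;> simp [Bg, Lmap, Rmap, mul_assoc]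

/-- the automorphism given by a group element -/
def act (k : Γ) : coB (Bg e) ≃g coB (Bg e) where
  toFun := Sum.map (Lmap k) (Rmap k)
  invFun := Sum.map (Lmap k⁻¹) (Rmap k⁻¹)
  left_inv := by
    rintro (l | r)
    · simp [← Lmap_mul, Lmap_one]
    · simp [← Rmap_mul, Rmap_one]
  right_inv := by
    rintro (l | r)
    · simp [← Lmap_mul, Lmap_one]
    · simp [← Rmap_mul, Rmap_one]
  map_rel_iff' := by
    have hL : ∀ l l' : Lt Γ m, Lmap k l = Lmap k l' ↔ l = l' := by
      intro l l'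
      constructor
      · intro h
        have := congrArg (Lmap k⁻¹) h
        rwa [← Lmap_mul, ← Lmap_mul, inv_mul_cancel, Lmap_one, Lmap_one] at this
      · rintro rfl; rfl
    have hR : ∀ l l' : Rt Γ, Rmap k l = Rmap k l' ↔ l = l' := by
      intro l l'
      constructor
      · intro h
        have := congrArg (Rmap k⁻¹) h
        rwa [← Rmap_mul, ← Rmap_mul, inv_mul_cancel, Rmap_one, Rmap_one] at this
      · rintro rfl; rfl
    rintro (l | r) (l' | r') <;>
      simp [adj_iff, Bc, hL, hR, Bg_map]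

def actHom : Γ →* (coB (Bg e) ≃g coB (Bg e)) where
  toFun := act e
  map_one' := by
    ext (l | r)
    · simp [act, Lmap_one]
    · simp [act, Rmap_one]
  map_mul' := by
    intro k k'
    ext (l | r)
    · simp [act, Lmap_mul]
    · simp [act, Rmap_mul]

lemma deg_h [Finite Γ] (h : Γ) : {r | Bg e (Sum.inr (Sum.inr h)) r}.ncard = Nat.card Γ := by
  have h1 : {r | Bg e (Sum.inr (Sum.inr h)) r} =
      (fun g : Γ => (Sum.inl (g, g⁻¹ * h) : Rt Γ)) '' Set.univ := by
    ext r
    simp only [Set.mem_ofPred_eq, Set.image_univ, Set.mem_range]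
    rcases r with ⟨g, s⟩ | b
    · simp only [Bg, Sum.inl.injEq, Prod.mk.injEq]
      constructor
      · rintro rfl; exact ⟨g, rfl, by simp⟩
      · rintro ⟨y, rfl, rfl⟩; simp
    · simp [Bg]
  rw [h1, Set.ncard_image_of_injective, Set.ncard_univ]
  intro a b hab
  simp only [Sum.inl.injEq, Prod.mk.injEq] at hab
  exact hab.1

lemma deg_g [Finite Γ] (g : Γ) :
    {r | Bg e (Sum.inr (Sum.inl g)) r}.ncard = Nat.card Γ + 1 := by
  have h1 : {r | Bg e (Sum.inr (Sum.inl g)) r} =
      insert (Sum.inr true) ((fun s : Γ => (Sum.inl (g, s) : Rt Γ)) '' Set.univ) := by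
    ext r
    simp only [Set.mem_ofPred_eq, Set.image_univ, Set.mem_range, Set.mem_insert_iff]
    rcases r with ⟨g', s⟩ | b
    · simp [Bg]
    · simp [Bg]
  have h2 : Function.Injective (fun s : Γ => (Sum.inl (g, s) : Rt Γ)) := by
    intro a b hab
    simp only [Sum.inl.injEq, Prod.mk.injEq] at hab
    exact hab.2
  have h3 : (Sum.inr true : Rt Γ) ∉ (fun s : Γ => (Sum.inl (g, s) : Rt Γ)) '' Set.univ := by
    simp
  rw [h1, Set.ncard_insert_of_notMem h3 (Set.toFinite _), Set.ncard_image_of_injective _ h2,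
    Set.ncard_univ]

lemma deg_i [Finite Γ] (i : Fin m) :
    Nat.card Γ + 2 ≤ {r | Bg e (Sum.inl i) r}.ncard := by
  have hm : 0 < m := i.pos
  let j : Fin m := ⟨m - 1, by omega⟩
  have h1 : insert (Sum.inr false) (insert (Sum.inr true)
      ((fun g : Γ => (Sum.inl (g, e.symm j) : Rt Γ)) '' Set.univ)) ⊆
      {r | Bg e (Sum.inl i) r} := by
    intro r hr
    simp only [Set.image_univ, Set.mem_insert_iff, Set.mem_range] at hr
    rcases hr with rfl | rfl | ⟨g, rfl⟩
    · simp [Bg]
    · simp [Bg]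
    · simp only [Bg, Set.mem_ofPred_eq, Equiv.apply_symm_apply]
      rw [Fin.le_def]
      have := i.2
      simp only [j]
      omega
  refine le_trans ?_ (Set.ncard_le_ncard h1 (Set.toFinite _))
  have h2 : Function.Injective (fun g : Γ => (Sum.inl (g, e.symm j) : Rt Γ)) := by
    intro a b hab
    simp only [Sum.inl.injEq, Prod.mk.injEq] at hab
    exact hab.1
  have h3 : (Sum.inr true : Rt Γ) ∉ (fun g : Γ => (Sum.inl (g, e.symm j) : Rt Γ)) '' Set.univ := by
    simp
  have h4 : (Sum.inr false : Rt Γ) ∉ insert (Sum.inr true)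
      ((fun g : Γ => (Sum.inl (g, e.symm j) : Rt Γ)) '' Set.univ) := by
    simp
  rw [Set.ncard_insert_of_notMem h4 (Set.toFinite _),
    Set.ncard_insert_of_notMem h3 (Set.toFinite _), Set.ncard_image_of_injective _ h2,
    Set.ncard_univ]

lemma deg_anti [Finite Γ] (i j : Fin m) (hij : i < j) :
    {r | Bg e (Sum.inl j) r}.ncard < {r | Bg e (Sum.inl i) r}.ncard := by
  apply Set.ncard_lt_ncard _ (Set.toFinite _)
  rw [Set.ssubset_iff_of_subset]
  · refine ⟨Sum.inl (1, e.symm i), ?_, ?_⟩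
    · simp [Bg]
    · simp only [Bg, Set.mem_ofPred_eq, Equiv.apply_symm_apply]
      exact not_le.2 hij
  · intro r hr
    rcases r with ⟨g, s⟩ | b
    · simp only [Bg, Set.mem_ofPred_eq] at hr ⊢
      exact hij.le.trans hr
    · simp [Bg]

theorem act_surj [Finite Γ] [Nontrivial Γ] (f : coB (Bg e) ≃g coB (Bg e)) : ∃ k, act e k = f := by
  have hm : 0 < m := (e 1).pos
  have hsides := sides (B := Bg e) (Sum.inl ⟨0, hm⟩)
    (by
      rintro (⟨g, s⟩ | b)
      · simp only [Bg]; rw [Fin.le_def]; exact Nat.zero_le _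
      · simp [Bg])
    (by
      rintro (i | g | h)
      · exact ⟨Sum.inr true, by simp [Bg]⟩
      · exact ⟨Sum.inr true, by simp [Bg]⟩
      · exact ⟨Sum.inl (h, 1), by simp [Bg]⟩)
    (by
      rintro (⟨g, s⟩ | b)
      · obtain ⟨g', hg'⟩ := exists_ne g
        exact ⟨Sum.inr (Sum.inl g'), by simpa [Bg] using hg'⟩
      · exact ⟨Sum.inr (Sum.inr 1), by simp [Bg]⟩) f
  obtain ⟨hl, hr⟩ := hsides
  choose fL hL using hl
  choose fR hR using hr
  have hB : ∀ l r, Bg e (fL l) (fR r) ↔ Bg e l r := by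
    intro l r
    have := Bc_iff f (Sum.inl l) (Sum.inr r)
    rw [hL, hR] at this
    exact this
  have hLinj : Function.Injective fL := by
    intro a b hab
    have : f (Sum.inl a) = f (Sum.inl b) := by rw [hL, hL, hab]
    exact Sum.inl.inj (f.injective this)
  have hRinj : Function.Injective fR := by
    intro a b hab
    have : f (Sum.inr a) = f (Sum.inr b) := by rw [hR, hR, hab]
    exact Sum.inr.inj (f.injective this)
  have hRsurj : Function.Surjective fR := Finite.injective_iff_surjective.1 hRinj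
  have hdeg : ∀ l, {r | Bg e (fL l) r}.ncard = {r | Bg e l r}.ncard := by
    intro l
    have h1 : {r | Bg e (fL l) r} = fR '' {r | Bg e l r} := by
      ext r
      obtain ⟨r', rfl⟩ := hRsurj r
      simp only [Set.mem_ofPred_eq, hB, Set.mem_image]
      constructor
      · intro h; exact ⟨r', h, rfl⟩
      · rintro ⟨r'', h, h2⟩
        rw [hRinj h2] at h; exact h
    rw [h1, Set.ncard_image_of_injective _ hRinj]
  have hfi : ∀ i, fL (Sum.inl i) = Sum.inl i := by
    intro i
    have h1 := hdeg (Sum.inl i)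
    have h2 := deg_i e i
    rcases h3 : fL (Sum.inl i) with j | g | h
    · rw [h3] at h1
      rcases lt_trichotomy i j with h4 | h4 | h4
      · have := deg_anti e i j h4; omega
      · rw [h4]
      · have := deg_anti e j i h4; omega
    · rw [h3, deg_g] at h1; omega
    · rw [h3, deg_h] at h1; omega
  have hfg : ∀ g, ∃ g', fL (Sum.inr (Sum.inl g)) = Sum.inr (Sum.inl g') := by
    intro g
    have h1 := hdeg (Sum.inr (Sum.inl g))
    rw [deg_g] at h1
    rcases h3 : fL (Sum.inr (Sum.inl g)) with j | g' | h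
    · rw [h3] at h1
      have := deg_i e j
      omega
    · exact ⟨g', rfl⟩
    · rw [h3, deg_h] at h1; omega
  have hfh : ∀ g, ∃ g', fL (Sum.inr (Sum.inr g)) = Sum.inr (Sum.inr g') := by
    intro g
    have h1 := hdeg (Sum.inr (Sum.inr g))
    rw [deg_h] at h1
    rcases h3 : fL (Sum.inr (Sum.inr g)) with j | g' | h
    · rw [h3] at h1
      have := deg_i e j
      omega
    · rw [h3, deg_g] at h1; omega
    · exact ⟨h, rfl⟩
  choose σ hσ using hfg
  choose τ hτ using hfh
  have hτinj : Function.Injective τ := by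
    intro a b hab
    have : fL (Sum.inr (Sum.inr a)) = fL (Sum.inr (Sum.inr b)) := by rw [hτ, hτ, hab]
    exact Sum.inr.inj (Sum.inr.inj (hLinj this))
  have hτsurj : Function.Surjective τ := Finite.injective_iff_surjective.1 hτinj
  -- the right side
  have hRp : ∀ g s, fR (Sum.inl (g, s)) = Sum.inl (σ g, s) ∧ τ (g * s) = σ g * s := by
    intro g s
    have h1 := (hB (Sum.inr (Sum.inr (g * s))) (Sum.inl (g, s))).2 (by simp [Bg])
    have h2 := (hB (Sum.inr (Sum.inl g)) (Sum.inl (g, s))).2 (by simp [Bg])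
    rw [hτ] at h1
    rw [hσ] at h2
    have h3 : ∀ i, Bg e (Sum.inl i) (fR (Sum.inl (g, s))) ↔ i ≤ e s := by
      intro i
      have := hB (Sum.inl i) (Sum.inl (g, s))
      rw [hfi] at this
      exact this
    rcases h4 : fR (Sum.inl (g, s)) with ⟨g', s'⟩ | b
    · rw [h4] at h1 h2
      simp only [Bg] at h1 h2
      have h5 : s' = s := by
        apply e.injective
        apply le_antisymm
        · have := (h3 (e s')).1 (by rw [h4]; simp [Bg])
          exact this
        · have := (h3 (e s)).2 le_rfl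
          rw [h4] at this
          exact this
      subst h5
      rw [h2]
      exact ⟨rfl, h1⟩
    · rw [h4] at h1
      exact absurd h1 (by simp [Bg])
  have hRb : ∀ b, fR (Sum.inr b) = Sum.inr b := by
    intro b
    rcases h4 : fR (Sum.inr b) with ⟨g', s'⟩ | b'
    · exfalso
      obtain ⟨h, hh⟩ := hτsurj (g' * s')
      have h5 := (hB (Sum.inr (Sum.inr h)) (Sum.inr b)).1 (by rw [hτ, hh, h4]; simp [Bg])
      exact absurd h5 (by simp [Bg])
    · have h5 := hB (Sum.inr (Sum.inl 1)) (Sum.inr b)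
      rw [hσ, h4] at h5
      simp only [Bg] at h5
      cases b <;> cases b' <;> simp_all
  have hστ : ∀ g, τ g = σ g := by
    intro g
    have := (hRp g 1).2
    simpa using this
  have hσmul : ∀ s, σ s = σ 1 * s := by
    intro s
    have := (hRp 1 s).2
    rw [hστ] at this
    simpa using this
  refine ⟨σ 1, ?_⟩
  ext (l | r)
  · rw [hL]
    rcases l with i | g | h
    · rw [hfi]; simp [act, Lmap]
    · rw [hσ, hσmul g]; simp [act, Lmap]
    · rw [hτ, hστ, hσmul h]; simp [act, Lmap]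
  · rw [hR]
    rcases r with ⟨g, s⟩ | b
    · rw [(hRp g s).1, hσmul g]; simp [act, Rmap]
    · rw [hRb]; simp [act, Rmap]

theorem act_inj : Function.Injective (actHom e) := by
  intro k k' h
  have h1 := congrArg (fun f : coB (Bg e) ≃g coB (Bg e) => f (Sum.inl (Sum.inr (Sum.inl 1)))) h
  simpa [actHom, act, Lmap] using h1

end group

/-- There is a finite graph `Y` (namely `K_{2,5}`) for which the class `𝒢(Y)` is universal. -/
theorem result : ∃ (k : ℕ) (Y : SimpleGraph (Fin k)), Universal Y := by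
  refine ⟨7, theta, ?_⟩
  intro Γ _ _
  rcases subsingleton_or_nontrivial Γ with hs | hs
  · refine ⟨Unit, inferInstance, ⊥, ?_, ?_⟩
    · refine ⟨len 0, fun _ => (⊤ : (subdivision theta (len 0)).Subgraph).induce (SL 0 (fun _ => 0)),
        fun _ => SL_conn 0 _ (fun _ => le_rfl), ?_⟩
      intro u v huv
      exact absurd (Subsingleton.elim u v) huv
    · have : Subsingleton ((⊥ : SimpleGraph Unit) ≃g (⊥ : SimpleGraph Unit)) :=
        ⟨fun f g => by ext x⟩
      exact ⟨{ toFun := fun _ => 1, invFun := fun _ => 1,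
               left_inv := fun _ => Subsingleton.elim _ _,
               right_inv := fun _ => Subsingleton.elim _ _,
               map_mul' := fun _ _ => Subsingleton.elim _ _ }⟩
  · let e : Γ ≃ Fin (Nat.card Γ) := Finite.equivFin Γ
    refine ⟨Lt Γ (Nat.card Γ) ⊕ Rt Γ, inferInstance, coB (Bg e), inClass_group e, ?_⟩
    exact ⟨(MulEquiv.ofBijective (actHom e) ⟨act_inj e, act_surj e⟩).symm⟩

end Pool.Agent.Results.MP_f0827e_co.UniversalThetaGraph
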